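import Pool.Agent.Helper49.NF.Goals

/-!
# Project NF (MP_0130f7_co), packet M2: the middle-out condition between the levels 2 and 3
-/

set_option autoImplicit false

namespace Pool.Agent.Helper2.NF

open Finset
open Pool.Agent.Helper47.SR (Grp mv lev wt Ew W IsInv up dn StarAt HalfStarAt Goal_KKA Goal_KKB)
open Pool.Agent.Helper49.NF

theorem W_eq {n : ℕ} (G : Grp n) (F : Finset (Finset (Fin n))) : W G F = #F + Ew G F := by
  unfold W Ew
  rw [sum_add_distrib, sum_const, smul_eq_mul, mul_one]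

/-- double counting of the pairs -/
theorem pair_sum {n : ℕ} (g : Finset (Fin n) → ℕ) :
    ∑ v, ∑ u ∈ univ.erase v, g {u, v} = 2 * ∑ y ∈ lev n 2, g y := by
  classical
  have h1 : ∀ v : Fin n, ∑ u ∈ univ.erase v, g {u, v} = ∑ y ∈ (lev n 2).filter (fun y => v ∈ y), g y := by
    intro v
    refine sum_bij (fun u _ => {u, v}) ?_ ?_ ?_ (fun _ _ => rfl)
    · intro u hu
      rw [mem_filter, mem_powersetCard]
      exact ⟨⟨subset_univ _, card_pair (ne_of_mem_erase hu)⟩, by simp⟩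
    · intro u hu u' hu' h
      have : u ∈ ({u', v} : Finset (Fin n)) := by
        rw [← h]; simp
      rw [mem_insert, mem_singleton] at this
      rcases this with h | h
      · exact h
      · exact absurd h (ne_of_mem_erase hu)
    · intro y hy
      rw [mem_filter, mem_powersetCard] at hy
      obtain ⟨⟨_, hc⟩, hv⟩ := hy
      obtain ⟨a, b, hab, rfl⟩ := card_eq_two.1 hc
      rw [mem_insert, mem_singleton] at hv
      rcases hv with rfl | rfl
      · exact ⟨b, mem_erase.2 ⟨hab.symm, mem_univ _⟩, pair_comm _ _⟩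
      · exact ⟨a, mem_erase.2 ⟨hab, mem_univ _⟩, rfl⟩
  rw [sum_congr rfl fun v _ => h1 v]
  simp only [sum_filter]
  rw [sum_comm, mul_sum]
  apply sum_congr rfl
  intro y hy
  rw [← sum_filter, sum_const, smul_eq_mul]
  congr 1
  rw [← (mem_powersetCard.1 hy).2]
  congr 1
  ext x
  simp

theorem num0 (c n K f : ℕ) (hc : 1 ≤ c) (hn : c ^ 8 * 2 ^ 10 ≤ n) (hK : K ^ 100 ≤ n)
    (hf : f ^ 5 ≤ n ^ 4) : c * (K ^ 6 * (f + 1)) ≤ n := by
  have hn1 : 1 ≤ n := by
    have : 1 ≤ c ^ 8 := Nat.one_le_pow _ _ hc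
    omega
  have h5 : (f + 1) ^ 5 ≤ 32 * n ^ 4 := by
    rcases Nat.eq_zero_or_pos f with h | h
    · subst h
      have : 1 ≤ n ^ 4 := Nat.one_le_pow _ _ hn1
      simp only [zero_add, one_pow]
      omega
    · calc (f + 1) ^ 5 ≤ (2 * f) ^ 5 := Nat.pow_le_pow_left (by omega) 5
        _ = 32 * f ^ 5 := by ring
        _ ≤ 32 * n ^ 4 := Nat.mul_le_mul_left _ hf
  have h6 : (c * (K ^ 6 * (f + 1))) ^ 50 ≤ n ^ 50 := by
    calc (c * (K ^ 6 * (f + 1))) ^ 50 = c ^ 50 * ((K ^ 100) ^ 3 * ((f + 1) ^ 5) ^ 10) := by ring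
      _ ≤ c ^ 50 * (n ^ 3 * (32 * n ^ 4) ^ 10) := by
          apply Nat.mul_le_mul_left
          exact Nat.mul_le_mul (Nat.pow_le_pow_left hK 3) (Nat.pow_le_pow_left h5 10)
      _ = (c ^ 50 * 2 ^ 50) * n ^ 43 := by ring
      _ ≤ n ^ 7 * n ^ 43 := by
          apply Nat.mul_le_mul_right
          calc c ^ 50 * 2 ^ 50 ≤ c ^ 56 * 2 ^ 70 :=
                Nat.mul_le_mul (Nat.pow_le_pow_right hc (by norm_num))
                  (Nat.pow_le_pow_right (by norm_num) (by norm_num))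
            _ = (c ^ 8 * 2 ^ 10) ^ 7 := by ring
            _ ≤ n ^ 7 := Nat.pow_le_pow_left hn 7
      _ = n ^ 50 := by ring
  exact (Nat.pow_le_pow_iff_left (by norm_num)).1 h6

theorem num1 (n d q lam D WS WY VS VY US v E3 y δ : ℝ) (hn : 100 ≤ n) (hd0 : 0 ≤ d) (hd : d ≤ n - 1)
    (hlam : lam = (n - 1) * (n - 2)) (hD : D = n - 1 + d) (hq : 0 ≤ q) (hδ : 0 ≤ δ)
    (hδn : 3200 * δ ≤ n) (hy : 1000000 * (n * q) ≤ y)
    (ha : lam * VS ≤ 3 * D * US)
    (hb : 1600 * (3 * D * v) + n ^ 2 * y ≤ 1600 * (lam * VY + δ * (n - 2) * y))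
    (hS : WS ≤ VS + n * q) (hY : VY ≤ WY) (hE : E3 ≤ 4 * n ^ 2 * q) (hlt : WY ≤ WS) :
    v + E3 + WS ≤ US + WY := by
  have hy0 : 0 ≤ y := le_trans (by positivity) hy
  have hD0 : 0 < D := by linarith
  have hD2 : 3 * D ≤ 6 * n := by linarith
  have hl0 : 0 ≤ lam := by rw [hlam]; exact mul_nonneg (by linarith) (by linarith)
  have hlD : 3 * D ≤ lam := by rw [hlam]; nlinarith
  have hln : lam ≤ n ^ 2 := by rw [hlam]; nlinarith
  have s1 : lam * (WS - n * q) ≤ 3 * D * US :=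
    (mul_le_mul_of_nonneg_left (by linarith) hl0).trans ha
  have s2 : lam * VY ≤ lam * WY := mul_le_mul_of_nonneg_left hY hl0
  have s3 : δ * (n - 2) * y ≤ n ^ 2 / 3200 * y := by
    apply mul_le_mul_of_nonneg_right _ hy0
    nlinarith
  have s4 : 0 ≤ (lam - 3 * D) * (WS - WY) := mul_nonneg (by linarith) (by linarith)
  have s5 : n ^ 2 / 3200 * (1000000 * (n * q)) ≤ n ^ 2 / 3200 * y :=
    mul_le_mul_of_nonneg_left hy (by positivity)
  have s6 : lam * (n * q) ≤ n ^ 2 * (n * q) := mul_le_mul_of_nonneg_right hln (by positivity)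
  have s7 : 3 * D * E3 ≤ 6 * n * (4 * n ^ 2 * q) := by
    calc 3 * D * E3 ≤ 3 * D * (4 * n ^ 2 * q) := mul_le_mul_of_nonneg_left hE (by linarith)
      _ ≤ 6 * n * (4 * n ^ 2 * q) := mul_le_mul_of_nonneg_right hD2 (by positivity)
  have hp : 0 ≤ n ^ 3 * q := by positivity
  have : 3 * D * (v + E3 + WS) ≤ 3 * D * (US + WY) := by nlinarith
  exact le_of_mul_le_mul_left this (by linarith)

theorem Ma3 (n f : ℕ) (hf : f ≤ n) (hn : 1 ≤ n) : Ma n f 3 ≤ 4 * n * (f + 1) := by
  have : Ma n f 3 = 2 + f + f ^ 2 + 2 * n := by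
    unfold Ma
    simp only [sum_range_succ, range_zero, sum_empty]
    norm_num
    ring
  rw [this]
  nlinarith [Nat.mul_le_mul_right f hf]

theorem goal_M2 (hSTB : Goal_STB) (hEJ : Goal_EJ) (hDEG : Goal_DEG) (hM2A : Goal_M2A)
    (hM2S : Goal_M2S) (hCLS : Goal_CLS) : Goal_M2 := by
  classical
  obtain ⟨n₁, hM2S⟩ := hM2S
  obtain ⟨C, hC⟩ : ∃ C : ℕ, C = 10 ^ 10 := ⟨_, rfl⟩
  refine ⟨n₁ + C ^ 8 * 2 ^ 10, fun n hn K f G hN hK hf => ?_⟩
  intro S Y hS hY hSi hYi hhalf hlt
  have hnum := num0 C n K f (by omega) (le_trans (Nat.le_add_left _ _) hn) hK hf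
  have hn0 : n₁ ≤ n := le_trans (Nat.le_add_right _ _) hn
  clear hn
  rw [hC] at hnum
  have hK1 := hN.K1
  set q : ℕ := K ^ 2 * (f + 1) with hq
  have hK6 : K ^ 2 ≤ K ^ 6 := Nat.pow_le_pow_right hK1 (by norm_num)
  have hq6 : 10 ^ 10 * q ≤ n := by
    refine le_trans ?_ hnum
    exact Nat.mul_le_mul_left _ (Nat.mul_le_mul_right _ hK6)
  have hq1 : 1 ≤ q := Nat.mul_pos (pow_pos hK1 2) (Nat.succ_pos f)
  have hn3 : 1000 ≤ n := by omega
  have hKq : K ≤ q := by
    have : K ≤ K ^ 2 := by nlinarith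
    nlinarith
  have hfn : f ≤ n := by
    have : f + 1 ≤ q := by
      have : 1 ≤ K ^ 2 := Nat.one_le_pow _ _ hK1
      nlinarith
    omega
  have hfam : Fam G 2 S Y := ⟨hS, hY, hSi, hYi, hlt⟩
  obtain ⟨b1, b2, b3, b4, b5⟩ := hSTB n K f G hN
  have hYle : #Y ≤ n.choose 2 := by
    have : #(lev n 2) = n.choose 2 := by rw [card_powersetCard, card_univ, Fintype.card_fin]
    rw [← this]; exact card_le_card hY
  have hSle : #S ≤ n.choose 2 := by
    have : #(lev n 2) = n.choose 2 := by rw [card_powersetCard, card_univ, Fintype.card_fin]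
    rw [← this]; exact card_le_card hS
  rcases Nat.lt_or_ge (#Y) (10 ^ 6 * (n * q)) with hYs | hYb
  · -- case 2
    set z := n / (20 * K ^ 2) with hz
    have hK2 : 0 < 20 * K ^ 2 := by positivity
    have hz1 : 20 * K ^ 2 * z ≤ n := Nat.mul_div_le _ _
    have hz2 : n < 20 * K ^ 2 * (z + 1) := by
      rw [hz]; exact Nat.lt_mul_div_succ n hK2
    have hz3 : 3 ≤ z := by
      by_contra hcon
      have h1 : z + 1 ≤ 3 := by omega
      have h2 : 20 * K ^ 2 * (z + 1) ≤ 20 * K ^ 2 * 3 := Nat.mul_le_mul_left _ h1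
      have h3 : K ^ 2 ≤ q := by
        rw [hq]; exact Nat.le_mul_of_pos_right _ (Nat.succ_pos f)
      omega
    have hNn : ∀ j, 1 ≤ j → j ≤ 3 → Nn G j (3 * K + 1) = 0 := by
      intro j hj1 hj3
      unfold Nn
      apply sum_eq_zero
      intro A hA
      exfalso
      rw [mem_filter, mem_powersetCard] at hA
      have hne : A.Nonempty := by rw [← card_pos]; omega
      have h1 := b3 A hne
      have h2 : K * #A ≤ K * 3 := Nat.mul_le_mul_left _ (by omega)
      omega
    have hY' : #Y ≤ (2 + (z - 2)).choose 2 := by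
      have e1 : 2 + (z - 2) = z := by omega
      rw [e1]
      have e2 : 2 * z.choose 2 = z * (z - 1) := by
        rw [Nat.choose_two_right, Nat.mul_div_cancel']
        exact (Nat.even_mul_pred_self z).two_dvd
      clear_value z
      obtain ⟨t, rfl⟩ : ∃ t, z = t + 3 := ⟨z - 3, by omega⟩
      have e3 : t + 3 - 1 = t + 2 := by omega
      rw [e3] at e2
      have h1 : n ≤ 2 * (20 * K ^ 2) * (t + 3) := by nlinarith
      have h2 : n ≤ 2 * (20 * K ^ 2) * (t + 2) := by nlinarith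
      have h3 : n * n ≤ 1600 * K ^ 4 * ((t + 3) * (t + 2)) := by
        calc n * n ≤ (2 * (20 * K ^ 2) * (t + 3)) * (2 * (20 * K ^ 2) * (t + 2)) :=
              Nat.mul_le_mul h1 h2
          _ = _ := by ring
      have h4 : 1600 * K ^ 4 * (2 * (10 ^ 6 * (n * q))) ≤ 1600 * K ^ 4 * ((t + 3) * (t + 2)) := by
        refine le_trans ?_ h3
        calc 1600 * K ^ 4 * (2 * (10 ^ 6 * (n * q))) = n * (32 * 10 ^ 8 * (K ^ 6 * (f + 1))) := by
              rw [hq]; ring
          _ ≤ n * n := by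
              apply Nat.mul_le_mul_left
              refine le_trans ?_ hnum
              exact Nat.mul_le_mul_right _ (by norm_num)
      have h5 := Nat.le_of_mul_le_mul_left h4 (by positivity)
      omega
    have hcl := hCLS n 2 (3 * K) (z - 2) 2 G S Y (by norm_num) (by omega) (by omega) hfam
      (by
        have e1 : n - 2 + 2 = n := by omega
        rw [e1, Nat.choose_symm (by omega)]
        exact hSle)
      hY' (by rw [hNn 2 (by norm_num) (by norm_num)]; omega)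
      (by rw [hNn 3 (by norm_num) (by norm_num)]; omega)
      (by
        have h1 : K ^ 2 * (z - 2) ≤ K ^ 2 * z := Nat.mul_le_mul_left _ (Nat.sub_le _ _)
        have h2 : 64 * (3 * K * (2 + 1) * (3 * K * (z - 2))) = 1728 * (K ^ 2 * (z - 2)) := by ring
        have h3 : 20 * (K ^ 2 * z) ≤ n := by rw [← mul_assoc]; exact hz1
        rw [h2]
        have h4 : 3 * K * (2 + 1) * (2 + 1) = 27 * K := by ring
        rw [h4]
        omega)
      (by
        have h4 : 3 * K * (2 + 1) * (2 + 1) = 27 * K := by ring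
        rw [h4]
        omega)
    exact hcl
  · -- case 1
    obtain ⟨w, d0, w1, w2, w3, w4, -⟩ := hDEG n K f G hN
    set δ : ℕ := K + K ^ 2 * f with hδ
    have hδq : δ ≤ q := by
      rw [hδ, hq]
      have : K ≤ K ^ 2 := by nlinarith
      nlinarith
    set d := min d0 (n - 1) with hd
    have hsum : ∀ v : Fin n, ∑ u ∈ univ.erase v, w {u, v} ≤ n - 1 := by
      intro v
      refine (sum_le_sum fun u _ => w1 {u, v}).trans ?_
      rw [sum_const, smul_eq_mul, mul_one, card_erase_of_mem (mem_univ v), card_univ,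
        Fintype.card_fin]
    have w3' : ∀ v, ∑ u ∈ univ.erase v, w {u, v} ≤ d ∧
        d ≤ ∑ u ∈ univ.erase v, w {u, v} + δ := by
      intro v
      refine ⟨le_min (w3 v).1 (hsum v), (min_le_left _ _).trans (w3 v).2⟩
    have hdn : d ≤ n - 1 := min_le_right _ _
    -- sums over all pairs
    have hPw : 2 * ∑ y ∈ lev n 2, wt G y ≤ 2 * ∑ y ∈ lev n 2, w y + 2 * (n * (K ^ 2 * f)) := by
      rw [← pair_sum, ← pair_sum]
      calc ∑ v, ∑ u ∈ univ.erase v, wt G {u, v} ≤
            ∑ v : Fin n, (∑ u ∈ univ.erase v, w {u, v} + 2 * K ^ 2 * f) :=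
              sum_le_sum fun v _ => w4 v
        _ = _ := by
            rw [sum_add_distrib, sum_const, card_univ, Fintype.card_fin, smul_eq_mul]
            ring
    have hwd : 2 * ∑ y ∈ lev n 2, w y ≤ n * d := by
      rw [← pair_sum]
      calc ∑ v, ∑ u ∈ univ.erase v, w {u, v} ≤ ∑ v : Fin n, d :=
            sum_le_sum fun v _ => (w3' v).1
        _ = _ := by rw [sum_const, card_univ, Fintype.card_fin, smul_eq_mul]
    -- comparison of the weights
    have hWlow : ∀ F ⊆ lev n 2, #F + ∑ y ∈ F, w y ≤ W G F := by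
      intro F hF
      rw [W_eq]
      exact Nat.add_le_add_left (sum_le_sum fun y hy => w2 y (hF hy)) _
    have hWup : ∀ F ⊆ lev n 2, W G F ≤ #F + ∑ y ∈ F, w y + n * (K ^ 2 * f) := by
      intro F hF
      rw [W_eq]
      have h1 : ∑ y ∈ lev n 2 \ F, w y ≤ ∑ y ∈ lev n 2 \ F, wt G y :=
        sum_le_sum fun y hy => w2 y (mem_sdiff.1 hy).1
      have h2 := sum_sdiff (f := fun y => w y) hF
      have h3 := sum_sdiff (f := fun y => wt G y) hF
      have h4 : Ew G F = ∑ y ∈ F, wt G y := rfl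
      rw [h4]
      omega
    have hch : 2 * n.choose 2 = n * (n - 1) := by
      rw [Nat.choose_two_right, Nat.mul_div_cancel']
      exact (Nat.even_mul_pred_self n).two_dvd
    have hlev : #(lev n 2) = n.choose 2 := by
      rw [card_powersetCard, card_univ, Fintype.card_fin]
    have hfq : K ^ 2 * f ≤ q := by rw [hq]; exact Nat.mul_le_mul_left _ (Nat.le_succ f)
    have hnq : 10 ^ 10 * (n * q) ≤ n * n := by
      calc 10 ^ 10 * (n * q) = n * (10 ^ 10 * q) := by ring
        _ ≤ n * n := Nat.mul_le_mul_left _ hq6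
    have hnfq : n * (K ^ 2 * f) ≤ n * q := Nat.mul_le_mul_left _ hfq
    have hYh : 4 * (#Y + ∑ y ∈ Y, w y) ≤ n * (n - 1 + d) + n ^ 2 / 100 := by
      have h1 := hWlow Y hY
      have h2 : W G (lev n 2) = n.choose 2 + ∑ y ∈ lev n 2, wt G y := by
        rw [W_eq, hlev]; rfl
      have h3 : n * (n - 1 + d) = n * (n - 1) + n * d := by ring
      have h4 : 2 * (n * (K ^ 2 * f)) ≤ n ^ 2 / 100 := by
        rw [Nat.le_div_iff_mul_le (by norm_num)]
        have : n ^ 2 = n * n := by ring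
        omega
      omega
    have hS2 := hM2S n hn0 d δ w (by omega) w1 w3' (by omega) Y hY hYh
    have hA := (hM2A n d δ w (by omega) w1 w3' S hS).1
    have hE3 : Ew G (dn 2 Y) ≤ 4 * n ^ 2 * q := by
      have h1 : Ew G (dn 2 Y) ≤ Ew G (lev n 3) := by
        unfold Ew
        exact sum_le_sum_of_subset (filter_subset _ _)
      refine h1.trans ((hEJ n K f G hN 3).1.trans ?_)
      calc K * n * Ma n f 3 ≤ K * n * (4 * n * (f + 1)) :=
            Nat.mul_le_mul_left _ (Ma3 n f hfn (by omega))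
        _ = 4 * n ^ 2 * (K * (f + 1)) := by ring
        _ ≤ 4 * n ^ 2 * q := by
            apply Nat.mul_le_mul_left
            rw [hq]
            exact Nat.mul_le_mul_right _ (by nlinarith)
    have hWS := hWup S hS
    have hWY := hWlow Y hY
    have c1 : ((n - 1 : ℕ) : ℝ) = (n : ℝ) - 1 := by
      rw [Nat.cast_sub (by omega)]; simp
    have c2 : ((n - 2 : ℕ) : ℝ) = (n : ℝ) - 2 := by
      rw [Nat.cast_sub (by omega)]; simp
    have main := num1 (n : ℝ) (d : ℝ) (q : ℝ) (((n - 1) * (n - 2) : ℕ) : ℝ) ((n - 1 + d : ℕ) : ℝ)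
      (W G S : ℝ) (W G Y : ℝ) ((#S + ∑ y ∈ S, w y : ℕ) : ℝ) ((#Y + ∑ y ∈ Y, w y : ℕ) : ℝ)
      (#(up 2 S) : ℝ) (#(dn 2 Y) : ℝ) (Ew G (dn 2 Y) : ℝ) (#Y : ℝ) (δ : ℝ)
      (by exact_mod_cast (by omega : 100 ≤ n)) (by positivity)
      (by rw [← c1]; exact_mod_cast hdn)
      (by rw [Nat.cast_mul, c1, c2]) (by rw [Nat.cast_add, c1]) (by positivity) (by positivity)
      (by exact_mod_cast (by omega : 3200 * δ ≤ n))
      (by exact_mod_cast (by omega : 1000000 * (n * q) ≤ #Y))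
      (by exact_mod_cast hA)
      (by rw [← c2]; exact_mod_cast hS2)
      (by exact_mod_cast (by omega : W G S ≤ (#S + ∑ y ∈ S, w y) + n * q))
      (by exact_mod_cast hWY)
      (by exact_mod_cast hE3)
      (by exact_mod_cast hlt.le)
    have main' : #(dn 2 Y) + Ew G (dn 2 Y) + W G S ≤ #(up 2 S) + W G Y := by exact_mod_cast main
    have hWu := W_eq G (up 2 S)
    have hWd := W_eq G (dn 2 Y)
    omega

end Pool.Agent.Helper2.NF
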